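import Pool.Agent.MNU.StmtsU

set_option autoImplicit false

/-!
# MNW (MP_160b6c_nt): many torsion points, version with an absolute number of pairs
(13 for `g = 2`, 11 for `g ≥ 3`, 9 for `g ≥ 14`). Definitions.

Everything of MNT, MNU, MNV which does not depend on the number of points is used unchanged. `m` = number
of points, `A` = coefficient of the resistances, `n = 2 g + 2` = number of branch points.
-/

namespace Pool.Agent.MNW

open Polynomial NumberField
open Pool.Agent.MNT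

/-- `γ = 2 ((g+1)(2g+1) - A) / (m - 1)` -/
noncomputable def gm (g m : ℕ) (A : ℝ) : ℝ :=
  2 * (((g : ℝ) + 1) * (2 * g + 1) - A) / ((m : ℝ) - 1)

/-- weight of a cluster with `a` roots and `b` points, `A`-terms not included -/
noncomputable def w0 (g m : ℕ) (A a b : ℝ) : ℝ :=
  (m : ℝ) * (a * (a - 1) / 2) - (2 * g + 1) * a * b + gm g m A * (b * (b - 1) / 2)

/-- weight of a cluster with `a ≥ 1` roots and `b` points -/
noncomputable def w1 (g m : ℕ) (A a b : ℝ) : ℝ := w0 g m A a b + A * b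

/-- The quadratic form of the branch lemma. -/
noncomputable def qf (u t k a D : ℝ) : ℝ := u * a ^ 2 - t * a * D + k * D ^ 2

/-- The lower bound along an edge. -/
noncomputable def ed (g m : ℕ) (A u t k a b y : ℝ) : ℝ :=
  w1 g m A a b - qf u t k a b + t * a * y - A * y - 2 * k * b * y + 3 * k * y ^ 2

/-- The numerical conditions. -/
structure Num (g m : ℕ) (A u t k : ℝ) : Prop where
  g_ge : 2 ≤ g
  m_ge : 9 ≤ m
  m_le : m ≤ 13
  A_nn : 0 ≤ A
  A_le : A ≤ ((g : ℝ) + 1) ^ 2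
  u_pos : 0 < u
  k_pos : 0 < k
  psd : t ^ 2 ≤ 4 * u * k
  odd : ∀ a b : ℕ, Odd a → a ≤ 2 * g + 1 → b ≤ m → 2 ≤ a + b → (a = 2 * g + 1 → b < m) →
    1 / 30 ≤ w1 g m A a b
  even : ∀ a b : ℕ, Even a → 2 ≤ a → a ≤ 2 * g → 2 * b ≤ m → ∀ y : ℝ, 0 ≤ y → y ≤ b →
    1 / 30 ≤ ed g m A u t k a b y
  cen : ∀ q : ℝ, 0 ≤ q → q ≤ m → A * q ≤ qf u t k (2 * g + 2) (m - q)

/-- The tree inequality for laminar families. -/
structure TI (g m : ℕ) (A : ℝ) : Prop where
  g_ge : 2 ≤ g
  m_ge : 9 ≤ m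
  m_le : m ≤ 13
  A_nn : 0 ≤ A
  A_le : A ≤ ((g : ℝ) + 1) ^ 2
  tree : ∀ (P : Type) [Fintype P] [DecidableEq P] (R : Finset P), R.card = 2 * g + 1 →
    Fintype.card P = 2 * g + 1 + m → ∀ Λ : Lam P, ∃ μ : P → Finset P → ℝ,
      (∀ x, x ∉ R → Λ.Prob R (μ x)) ∧
      1 / 30 * Λ.len + A * ∑ x ∈ Rᶜ, Λ.En (μ x) x ≤
        ∑ d ∈ Λ.V, Λ.l d * w0 g m A (d ∩ R).card (d \ R).card

/-- `m` points are enough for genus `g`. -/
def Good (g m : ℕ) : Prop := ∃ A : ℝ, TI g m A

/-- The quadratic functional of the configuration (ordered pairs, hence the factors `1 / 2`). -/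
noncomputable def Psi {P : Type} [Fintype P] [DecidableEq P] (g m : ℕ) (A : ℝ) (R : Finset P)
    (δ : P → P → ℝ) : ℝ :=
  (m : ℝ) / 2 * pairs R δ - (2 * g + 1) * cross R Rᶜ δ + gm g m A / 2 * pairs Rᶜ δ

/-! ## Trees -/

section tree

open scoped Classical

variable {V : Type} [Fintype V] [PartialOrder V] [OrderTop V]

/-- Labels: `a v`, `b v` = number of roots and of points in the cluster `v`; `G` = grounded. -/
structure La (g m : ℕ) (T : MNT.Tree V) (G : V → Prop) (a b : V → ℕ) : Prop where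
  a_pos : ∀ v, 1 ≤ a v
  a_le : ∀ v, a v ≤ 2 * g + 1
  b_le : ∀ v, b v ≤ m
  two_le : ∀ v, 2 ≤ a v + b v
  proper : ∀ v, v ≠ ⊤ → a v = 2 * g + 1 → b v < m
  a_kids : ∀ v, ∑ c ∈ T.kids v, a c ≤ a v
  b_kids : ∀ v, ∑ c ∈ T.kids v, b c ≤ b v
  top : G ⊤
  a_top : a ⊤ = 2 * g + 1
  b_top : b ⊤ = m
  even : ∀ v, ¬ G v → Even (a v)
  sum_eq : ∀ v, ¬ G v → ∑ c ∈ T.kids v, a c = a v
  kids_even : ∀ v, ¬ G v → ∀ c ∈ T.kids v, Even (a c)

/-- number of points whose foot is `v` -/
noncomputable def rho (T : MNT.Tree V) (b : V → ℕ) (v : V) : ℝ :=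
  (b v : ℝ) - ∑ c ∈ T.kids v, (b c : ℝ)

/-- Contribution of the branch consisting of the edge `c` and everything below `c`, if the parent of
`c` is grounded. -/
noncomputable def YD (g m : ℕ) (A : ℝ) (a b : V → ℕ) (l s q U : V → ℝ) (c : V) : ℝ :=
  U c + l c * w1 g m A (a c) (b c) - A * (s c * l c / (s c + l c)) * q c

/-- Downward data: `q v` = sum over the points below `v` of the square of the probability to reach `v`
before the grounded nodes below `v`; `U v` = contribution of everything below `v` if `v` is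
grounded. -/
structure Dn (g m : ℕ) (A : ℝ) (T : MNT.Tree V) (a b : V → ℕ) (l s q U : V → ℝ) : Prop where
  q_eq : ∀ v, q v = rho T b v + ∑ c ∈ T.kids v, (s c / (s c + l c)) ^ 2 * q c
  U_eq : ∀ v, U v = ∑ c ∈ T.kids v, YD g m A a b l s q U c
  q_nn : ∀ v, 0 ≤ q v
  q_le : ∀ v, q v ≤ b v

/-- Contribution of the branch consisting of the edge `c` and everything which is not below `c`, if `c`
is grounded; `p`, `Z` are the upward data. -/
noncomputable def YU (g m : ℕ) (A : ℝ) (a b : V → ℕ) (l r p Z : V → ℝ) (c : V) : ℝ :=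
  Z c + l c * w1 g m A (a c) (b c) - A * (r c * l c / (r c + l c)) * p c

/-- Upward data, for `c ≠ ⊤`: `p c`, `Z c` are the analogues of `q`, `U` for the part of the tree above
`c` (everything which is not `≤ c`, without the edge `c`), seen from the parent of `c`. -/
structure Uw (g m : ℕ) (A : ℝ) (T : MNT.Tree V) (a b : V → ℕ) (l s r q U p Z : V → ℝ) : Prop where
  p_eq : ∀ c, c ≠ ⊤ → p c = rho T b (T.par c) +
    ∑ d ∈ (T.kids (T.par c)).erase c, (s d / (s d + l d)) ^ 2 * q d +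
    if T.par c = ⊤ then 0 else (r (T.par c) / (r (T.par c) + l (T.par c))) ^ 2 * p (T.par c)
  Z_eq : ∀ c, c ≠ ⊤ → Z c = ∑ d ∈ (T.kids (T.par c)).erase c, YD g m A a b l s q U d +
    if T.par c = ⊤ then 0 else YU g m A a b l r p Z (T.par c)
  p_nn : ∀ c, c ≠ ⊤ → 0 ≤ p c
  p_le : ∀ c, c ≠ ⊤ → p c ≤ m - b c

end tree

/-! ## Configurations -/

/-- error constants of the local inequality -/
noncomputable def E1 (g : ℕ) : ℝ :=
  13 * ((g : ℝ) + 1) ^ 2 * (1 + 3 * (4 * g + 10)) + ((g : ℝ) + 4) ^ 2 * (4 * g + 10) ^ 3 +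
    2 * (4 * (g : ℝ) + 10)

/-- error constants of the local inequality -/
noncomputable def E2 (g : ℕ) : ℝ := 13 * ((g : ℝ) + 1) ^ 2

/-- Index set: `2 g + 1` roots (`inl`) and `m` points (`inr`). -/
abbrev QI (g m : ℕ) : Type := Fin (2 * g + 1) ⊕ Fin m

/-- The roots. -/
def QR (g m : ℕ) : Finset (QI g m) := Finset.univ.filter fun p => p.isLeft

/-- A configuration over `K`: `z` = roots (on `QR g m`) and abscissae (outside `QR g m`) with solutions
of the Pell equation for every abscissa. -/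
structure Cfg (g m : ℕ) {K : Type} [Field K] (z : QI g m → K) (e : K) : Prop where
  inj : Function.Injective z
  e_ne : e ≠ 0
  sol : ∀ x, x ∉ QR g m → ∃ (N : ℕ) (U W : K[X]) (c : K), IsSol (FF e (QR g m) z) (z x) N U W c

/-- The explicit bound of the height. -/
noncomputable def HH (g : ℕ) : ℝ := Real.exp (30 * (4 * (g : ℝ) + 10) ^ 5)

/-- `C`, of degree `2 g + 1`, has a configuration over some number field `E ⊇ K`. -/
def HasCfg (g m : ℕ) {K : Type} [Field K] [NumberField K] (C : UBT.OddCurve K) : Prop :=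
  C.f.natDegree = 2 * g + 1 ∧ ∃ (E : Type) (_ : Field E) (_ : NumberField E) (_ : Algebra K E)
    (e : E) (θ : Fin (2 * g + 1) → E) (x : Fin m → E),
    C.f.map (algebraMap K E) = Polynomial.C e * ∏ j, (X - Polynomial.C (θ j)) ∧
    Cfg g m (Sum.elim θ x) e

/-- The same with roots in `K`. -/
def RCfg (g m : ℕ) (K : Type) [Field K] [NumberField K] (e : K) (θ : Fin (2 * g + 1) → K) : Prop :=
  ∃ (L : Type) (_ : Field L) (_ : NumberField L) (_ : Algebra K L) (x : Fin m → L),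
    Cfg g m (Sum.elim (fun j => algebraMap K L (θ j)) x) (algebraMap K L e)

end Pool.Agent.MNW
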