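import Mathlib
import Pool.Agent.MNT.Point
import Pool.Agent.MNU.Final

set_option autoImplicit false

/-!
# Torsion points on hyperelliptic curves: an absolute number of pairs. Definitions used in the final
statement

`UBT.OddCurve K` is a curve `C : Y² = f(X)` over `K`, `f` squarefree of odd degree; `C.Jac` is the class
group of its coordinate ring, i.e. the group `J(K)`; `MNT.cls C x y` is the class of `P - ∞`,
`P = (x, y)`.
-/

namespace Pool.Agent.MNW

open Polynomial NumberField Pool.Agent.MNT Pool.Agent.MNU

/-- The `(x i, y i)` are `m` points of `C : Y² = f(X)`, `deg f = 2 g + 1`, over `K` with distinct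
abscissae, not Weierstrass points, and torsion in the Jacobian (base point `∞`). -/
structure Many (g m : ℕ) {K : Type} [Field K] [CharZero K] (C : UBT.OddCurve K)
    (x y : Fin m → K) : Prop where
  deg : C.f.natDegree = 2 * g + 1
  inj : Function.Injective x
  on : ∀ i, y i ^ 2 = C.f.eval (x i)
  ne : ∀ i, y i ≠ 0
  tor : ∀ i, IsOfFinOrder (cls C (x i) (y i))

/-- The indices of the roots and of the points. -/
abbrev Idx (g m : ℕ) : Type := Fin (2 * g + 1) ⊕ Fin m

/-- The configuration of the roots `θ j` of `f` and the abscissae `x i`, as a projective point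
`(z p - z q)`, has relative multiplicative height at most `exp (30 (4 g + 10)⁵) ^ [K : ℚ]`. -/
def HeightBound (g m : ℕ) : Prop :=
  ∀ (K : Type) [Field K] [NumberField K] (C : UBT.OddCurve K) (x y : Fin m → K),
    Many g m C x y → ∀ (e : K) (θ : Fin (2 * g + 1) → K),
    C.f = Polynomial.C e * ∏ j, (X - Polynomial.C (θ j)) →
    Height.mulHeight (fun pq : Idx g m × Idx g m => Sum.elim θ x pq.1 - Sum.elim θ x pq.2) ≤
      Real.exp (30 * (4 * (g : ℝ) + 10) ^ 5) ^ Module.finrank ℚ K

/-- Finitely many configurations up to affine maps over all number fields of degree `≤ d`. -/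
def FinitelyMany (g m : ℕ) : Prop :=
  ∀ d : ℕ, ∃ S : Finset (Idx g m → AlgebraicClosure ℚ), ∀ (K : Type) [Field K] [NumberField K],
    Module.finrank ℚ K ≤ d → ∀ (C : UBT.OddCurve K) (x y : Fin m → K), Many g m C x y →
    ∀ φ : K →+* AlgebraicClosure ℚ, ∃ s ∈ S, ∃ μ ν : AlgebraicClosure ℚ, μ ≠ 0 ∧
      (∀ i, φ (x i) = μ * s (Sum.inr i) + ν) ∧
      (C.f.map φ).roots = Finset.univ.val.map fun j => μ * s (Sum.inl j) + ν

/-- `C` over the number field `K` has, over some number field `L ⊇ K` of arbitrary degree, `m`
points `(x i, y i)` with distinct abscissae, not Weierstrass points, which are torsion in the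
Jacobian; and `deg f = 2 g + 1`. -/
def ManyPoints (g m : ℕ) {K : Type} [Field K] [NumberField K] (C : UBT.OddCurve K) : Prop :=
  ∃ (L : Type) (_ : Field L) (_ : NumberField L) (_ : Algebra K L) (C' : UBT.OddCurve L)
    (x y : Fin m → L), C'.f = C.f.map (algebraMap K L) ∧ Many g m C' x y

/-- `C` over `K` is a model, of odd degree `2 g + 1`, of a curve `y² = f(x)` over a number field
`F ⊆ K` (`deg f ≤ 2 g + 2`), and `C` has, over some number field `L ⊇ K` of arbitrary degree, a
torsion point whose abscissa in the coordinate of `y² = f(x)` is finite and of degree at least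
`m` over `F`, and which is not a Weierstrass point. -/
def LargeDegree (g m : ℕ) {K : Type} [Field K] [NumberField K] (C : UBT.OddCurve K) : Prop :=
  ∃ (F L : Type) (_ : Field F) (_ : NumberField F) (_ : Field L) (_ : NumberField L)
    (_ : Algebra F K) (_ : Algebra K L) (_ : Algebra F L) (_ : IsScalarTower F K L)
    (f : F[X]) (α β γ δ : K) (C' : UBT.OddCurve L) (x y : L),
    OddModel g f C α β γ δ ∧ C'.f = C.f.map (algebraMap K L) ∧ y ^ 2 = C'.f.eval x ∧ y ≠ 0 ∧
    algebraMap K L γ * x + algebraMap K L δ ≠ 0 ∧
    m ≤ (minpoly F ((algebraMap K L α * x + algebraMap K L β) /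
      (algebraMap K L γ * x + algebraMap K L δ))).natDegree ∧
    IsOfFinOrder (cls C' x y)

/-- The roots of `f`, embedded in the algebraic closure of `ℚ`, are the image of an element of the
finite set `S` under an affine map. -/
def RootsIn (g : ℕ) (S : Finset (Fin (2 * g + 1) → AlgebraicClosure ℚ)) {K : Type} [Field K]
    (C : UBT.OddCurve K) : Prop :=
  ∀ φ : K →+* AlgebraicClosure ℚ, ∃ s ∈ S, ∃ μ ν : AlgebraicClosure ℚ, μ ≠ 0 ∧
    (C.f.map φ).roots = Finset.univ.val.map fun j => μ * s j + ν

/-- For every `d`: up to affine maps of the roots there are only finitely many curves `C` over number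
fields `K` of degree at most `d` with `m` torsion points of different abscissae over the
algebraic closure, or with one torsion point of degree at least `m`; and all torsion of their
Jacobians over `K` is bounded. -/
def FinitelyManyCurves (g m : ℕ) : Prop :=
  ∀ d : ℕ, ∃ (S : Finset (Fin (2 * g + 1) → AlgebraicClosure ℚ)) (B : ℕ),
    ∀ (K : Type) [Field K] [NumberField K], Module.finrank ℚ K ≤ d → ∀ C : UBT.OddCurve K,
    ManyPoints g m C ∨ LargeDegree g m C →
    RootsIn g S C ∧ ∀ c : C.Jac, IsOfFinOrder c → orderOf c ≤ B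

/-- The number of points: `12` for `g = 2`, `10` for `g = 3`, `9` for `g ≥ 4`. -/
def num (g : ℕ) : ℕ := if g = 2 then 12 else if g = 3 then 10 else 9

end Pool.Agent.MNW
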