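import Pool.Agent.MNW.StmtsT
import Pool.Agent.MNV.Stmts
import Pool.Agent.MNW.Final

set_option autoImplicit false

/-!
# MNW, blocks A, G, M: places, number fields, models. All rows are copies of rows of MNU / MNV with the
number of points `2g+9` replaced by `m` and `3g` by `A`.
-/

namespace Pool.Agent.MNW

open Polynomial NumberField
open Pool.Agent.MNT
open scoped Classical

/-! ## Block A: places -/

/-- CNW (copy of `Helper41_MNU/CNU.lean`). Double counting; the error for `δ` is at most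
`(m/2 + (2g+1) + gm/2) n² e₁ ≤ (g+4)² n² e₁` (`0 ≤ gm/2 ≤ (g+1)(2g+1)/8`, `m ≤ 13`,
`n = card P`). -/
def CnwStmt : Prop := ∀ (g m : ℕ) (A : ℝ), 2 ≤ g → 9 ≤ m → m ≤ 13 → 0 ≤ A →
    A ≤ ((g : ℝ) + 1) ^ 2 → ∀ (P : Type) [Fintype P] [DecidableEq P] (Λ : Lam P) (R : Finset P)
    (δ : P → P → ℝ) (e₁ : ℝ), Λ.Rep δ e₁ →
    |Psi g m A R δ - ∑ d ∈ Λ.V, Λ.l d * w0 g m A (d ∩ R).card (d \ R).card| ≤
      ((g : ℝ) + 4) ^ 2 * (Fintype.card P : ℝ) ^ 2 * e₁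

/-- LOW (copy of `Helper24_MNU/LOU.lean`; uses CNW and VLM, REP of MNT; the tree inequality is
`TI.tree`). The error: `A m (e₂ + c₀ + 3 n c₀) + (g+4)² n² · n c₀ + 2 n c₀` with
`n = card P = 2g+1+m ≤ 4g+10`, `A m ≤ 13 (g+1)²`. -/
def LowStmt : Prop := ∀ (g m : ℕ) (A : ℝ), TI g m A → ∀ (E : Type) [Field E]
    (v : AbsoluteValue E ℝ) (c₀ e₂ : ℝ), QU v c₀ → 0 ≤ e₂ → ∀ (P : Type) [Fintype P]
    [DecidableEq P] (R : Finset P), R.card = 2 * g + 1 →
    Fintype.card P = 2 * g + 1 + m → ∀ z : P → E, Function.Injective z →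
    ∀ (e : E) (N : P → ℕ) (U W : P → E[X]) (c : P → E), e ≠ 0 →
    (∀ x, x ∉ R → IsSol (FF e R z) (z x) (N x) (U x) (W x) (c x) ∧ (U x).Splits) →
    (∀ Λ : Lam P, Λ.Rep (dis v z) ((Fintype.card P : ℝ) * c₀) → ∀ d ∈ Λ.V, Λ.Grd R d →
      ∃ p ∈ d, ∀ x, x ∉ R → Harm v (U x).roots (z x) (z p) (Real.exp (-Λ.lev d)) e₂) →
    ∀ p q p' q', p ≠ q → p' ≠ q' → 1 / 30 * (dis v z p' q' - dis v z p q) ≤
      Psi g m A R (dis v z) - A * ∑ x ∈ Rᶜ,
        (Real.log (v ((U x).eval (z x))) - Real.log (v (c x))) / N x + (E1 g * c₀ + E2 g * e₂)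

/-- NBW (40 lines, arithmetic). PROOF. With `N = 4g+10 ≥ 18`: the left side increases in `n`, so
`log 128 + n log 2 + n log (4 n) ≤ 0.32 N²` as in `Helper15_MNU/NBE.lean`; `g + 1 ≤ N/4`, `g + 4 ≤ N/3`:
`E2 g ≤ 13 N²/16`, `E1 g ≤ 13 (N²/16)(1 + 3N) + N⁵/9 + 2 N`. In total
`≤ 0.7 (13/16 N² + 39/16 N³ + N⁵/9 + 2 N) + 0.26 N⁴ ≤ N⁵` (`N ≥ 18`). -/
def NbwStmt : Prop := ∀ g : ℕ, 2 ≤ g → ∀ n : ℝ, 1 ≤ n → n ≤ 4 * g + 10 →
    E1 g * Real.log 2 + E2 g * (Real.log 128 + |n * Real.log 2| + n * Real.log (4 * n)) ≤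
      (4 * (g : ℝ) + 10) ^ 5

/-- LBW (copy of `Helper92_MNU/LBU.lean`; uses LOW, NBW and OTE of MNU, OTN of MNT).
`n = card (QI g m) = 2g+1+m ≤ 4g+10`. -/
def LbwStmt : Prop := ∀ (g m : ℕ) (A : ℝ), TI g m A →
    (∀ (E : Type) [Field E] (v : AbsoluteValue E ℝ), IsNonarchimedean v → ∀ z : QI g m → E,
      Function.Injective z → ∀ (e : E) (N : QI g m → ℕ) (U W : QI g m → E[X]) (c : QI g m → E),
      e ≠ 0 →
      (∀ x, x ∉ QR g m → IsSol (FF e (QR g m) z) (z x) (N x) (U x) (W x) (c x) ∧ (U x).Splits) →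
      ∀ p q p' q', p ≠ q → p' ≠ q' → 1 / 30 * (dis v z p' q' - dis v z p q) ≤
        Psi g m A (QR g m) (dis v z) - A * ∑ x ∈ (QR g m)ᶜ,
          (Real.log (v ((U x).eval (z x))) - Real.log (v (c x))) / N x) ∧
    (∀ z : QI g m → ℂ, Function.Injective z → ∀ (e : ℂ) (N : QI g m → ℕ) (U W : QI g m → ℂ[X])
      (c : QI g m → ℂ), e ≠ 0 →
      (∀ x, x ∉ QR g m → IsSol (FF e (QR g m) z) (z x) (N x) (U x) (W x) (c x)) →
      ∀ p q p' q', p ≠ q → p' ≠ q' → 1 / 30 * (dis vC z p' q' - dis vC z p q) ≤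
        Psi g m A (QR g m) (dis vC z) - A * ∑ x ∈ (QR g m)ᶜ,
          (Real.log ‖(U x).eval (z x)‖ - Real.log ‖c x‖) / N x + (4 * (g : ℝ) + 10) ^ 5)

/-- HGW (STRONG, copy of `Helper38_MNU/HGU.lean`, 360 lines; uses LBW, PFL of MNT, `BHT.ev`,
`UBT.ext1`). Explicit bound of the height: `log mulHeight ≤ 30 (4g+10)⁵ [K : ℚ]`. -/
def HgwStmt : Prop := ∀ (g m : ℕ), Good g m → ∀ (K : Type) [Field K] [NumberField K]
    (z : QI g m → K) (e : K), Cfg g m z e →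
    Height.mulHeight (fun pq : QI g m × QI g m => z pq.1 - z pq.2) ≤
      HH g ^ Module.finrank ℚ K

/-! ## Block G: number fields -/

/-- FNW (copy of `Helper69_MNU/FNU.lean`; uses HGW, `BHT.NCSStmt` (proved)). Finiteness. -/
def FnwStmt : Prop := ∀ (g m : ℕ), Good g m → ∀ d : ℕ, ∃ S : Finset (QI g m → AlgebraicClosure ℚ),
    ∀ (K : Type) [Field K] [NumberField K], Module.finrank ℚ K ≤ d →
    ∀ (z : QI g m → K) (e : K), Cfg g m z e → ∀ φ : K →+* AlgebraicClosure ℚ,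
    ∃ s ∈ S, ∃ μ ν : AlgebraicClosure ℚ, μ ≠ 0 ∧ ∀ p, φ (z p) = μ * s p + ν

/-- SPW (copy of `Helper28_MNV/SPU.lean`). Configurations from many torsion points. -/
def SpwStmt : Prop := ∀ (g m : ℕ) (K : Type) [Field K] [NumberField K] (f : K[X]),
    f.natDegree = 2 * g + 1 → Squarefree f → ∀ (x y : Fin m → K), Function.Injective x →
    (∀ i, y i ^ 2 = f.eval (x i)) → (∀ i, y i ≠ 0) → (∀ i, ∃ N, TorB f (x i) (y i) N) →
    ∃ (E : Type) (_ : Field E) (_ : NumberField E) (_ : Algebra K E) (e : E)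
      (θ : Fin (2 * g + 1) → E),
      Module.finrank ℚ E ≤ Module.finrank ℚ K * (2 * g + 1).factorial ∧
      f.map (algebraMap K E) = C e * ∏ j, (X - C (θ j)) ∧
      Cfg g m (Sum.elim θ fun i => algebraMap K E (x i)) e

/-- LDW (copy of `Helper31_MNU/CFM.lean` up to `hcfg` and `Helper31_MNV/LDC.lean`; uses HSI, MOB, MOI,
CNE of MNU and PEL of MNT). The configuration from a torsion point of large degree. Difference: the
number of points is `m`, and `y ≠ 0` is a hypothesis (before, it followed from the degree): with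
`ξ = (α x + β)/(γ x + δ)`, `Y.f.eval x = e (γx+δ)^(2g+2) f(ξ)` and `y ≠ 0` give `f(ξ) ≠ 0`, hence
`f(σ ξ) ≠ 0` for all conjugates. -/
def LdwStmt : Prop := ∀ (g m : ℕ) (K M : Type) [Field K] [NumberField K] [Field M] [NumberField M]
    [Algebra K M] (f : K[X]) (Y : UBT.OddCurve M) (α β γ δ : M), 1 ≤ m →
    MNU.IsOddModel g f Y α β γ δ →
    ∀ x y : M, y ^ 2 = Y.f.eval x → y ≠ 0 → γ * x + δ ≠ 0 →
    m ≤ (minpoly K ((α * x + β) / (γ * x + δ))).natDegree → IsOfFinOrder (cls Y x y) →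
    HasCfg g m Y

/-- LTW (copy of `Helper70_MNV/LDT.lean`; uses LDW). -/
def LtwStmt : Prop := ∀ (g m : ℕ) (K : Type) [Field K] [NumberField K] (C : UBT.OddCurve K),
    1 ≤ m → LargeDegree g m C → HasCfg g m C

/-- MPW (copy of `Helper87_MNV/MPT.lean`; uses SPW). -/
def MpwStmt : Prop := ∀ (g m : ℕ) (K : Type) [Field K] [NumberField K] (C : UBT.OddCurve K),
    ManyPoints g m C → HasCfg g m C

/-- SVW (copy of `Helper70_MNV/SPV.lean`). The roots generate a field of bounded degree. -/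
def SvwStmt : Prop := ∀ (g m : ℕ) (K : Type) [Field K] [NumberField K] (C : UBT.OddCurve K),
    HasCfg g m C → ∃ (E : Type) (_ : Field E) (_ : NumberField E) (_ : Algebra K E) (e : E)
      (θ : Fin (2 * g + 1) → E), Module.finrank ℚ E ≤ Module.finrank ℚ K * (2 * g + 1).factorial ∧
      C.f.map (algebraMap K E) = Polynomial.C e * ∏ j, (X - Polynomial.C (θ j)) ∧ RCfg g m E e θ

/-- RDW (copy of `Helper13_MNV/RDH.lean`; uses HGW, HXT of MNV (proved)). Height of the differences of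
the roots. -/
def RdwStmt : Prop := ∀ (g m : ℕ), Good g m → ∀ (K : Type) [Field K] [NumberField K] (e : K)
    (θ : Fin (2 * g + 1) → K), RCfg g m K e θ →
    Height.mulHeight (fun pq : Fin (2 * g + 1) × Fin (2 * g + 1) => θ pq.1 - θ pq.2) ≤
      HH g ^ Module.finrank ℚ K

/-- RFW (copy of `Helper70_MNV/RFN.lean`; uses RDW, `BHT.NCSStmt`). -/
def RfwStmt : Prop := ∀ (g m : ℕ), Good g m → ∀ d : ℕ,
    ∃ S : Finset (Fin (2 * g + 1) → AlgebraicClosure ℚ),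
    ∀ (K : Type) [Field K] [NumberField K], Module.finrank ℚ K ≤ d →
    ∀ (e : K) (θ : Fin (2 * g + 1) → K), RCfg g m K e θ → ∀ φ : K →+* AlgebraicClosure ℚ,
    ∃ s ∈ S, ∃ μ ν : AlgebraicClosure ℚ, μ ≠ 0 ∧ ∀ j, φ (θ j) = μ * s j + ν

/-- RTW (copy of `Helper70_MNV/RTB.lean`; uses RDW, GPR, PRP of MNU (proved)). -/
def RtwStmt : Prop := ∀ (g m : ℕ), Good g m → ∀ d : ℕ, ∃ B : ℕ,
    ∀ (K : Type) [Field K] [NumberField K], Module.finrank ℚ K ≤ d →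
    ∀ (e : K) (θ : Fin (2 * g + 1) → K), RCfg g m K e θ → ∀ C : UBT.OddCurve K,
    C.f = Polynomial.C e * ∏ j, (X - Polynomial.C (θ j)) →
    ∀ c : C.Jac, IsOfFinOrder c → orderOf c ≤ B

end Pool.Agent.MNW
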