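import Pool.Agent.MNW.Defs

set_option autoImplicit false

/-!
# MNW, block T: the tree inequality (branch lemma). Statements with proofs in the docstrings.

Parameters `g m A u t k`; `qf = qf u t k`. For an edge `c ≠ ⊤` (from `c` to `par c`).
-/

namespace Pool.Agent.MNW

open Pool.Agent.MNT
open scoped Classical

/-- EDG (40 lines, algebra). The edge inequality. PROOF. `σ = s/(s+l)`, `0 ≤ σ ≤ 1`, `y = σ q ∈ [0, b]`.
Identity (`field_simp; ring`): right side minus left side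
`= l (ed g m A u t k a b (σ q) - 1/30 + k σ (1-σ)² q²)`; here `l = (s+l)(1-σ)`. -/
def EdgStmt : Prop := ∀ (g m : ℕ) (A u t k a b q s l : ℝ), 0 ≤ k → 0 < l → 0 ≤ s → 0 ≤ q → q ≤ b →
    (∀ y : ℝ, 0 ≤ y → y ≤ b → 1 / 30 ≤ ed g m A u t k a b y) →
    1 / 30 * l + (s + l) * qf u t k a (b - (s / (s + l)) ^ 2 * q) ≤
      s * qf u t k a (b - q) + l * w1 g m A a b - A * (s * l / (s + l)) * q

/-- SYW (10 lines). Symmetry of the weight: all branch points, all points. PROOF. `unfold`,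
`field_simp`, `ring` (`m - 1 ≠ 0`). -/
def SywStmt : Prop := ∀ (g m : ℕ) (A a b : ℝ), 2 ≤ m →
    w1 g m A (2 * g + 2 - a) (m - b) = w1 g m A a b

/-- MGR (50 lines). Merging of branches. PROOF. `qf = u (a - t/(2u) D)² + (k - t²/(4u)) D²` is
nonnegative and a sum of two squares of linear forms with nonnegative coefficients; for each linear
form `x`: `(∑ x_i)² ≤ (∑ (ρ i)⁻¹) (∑ ρ i x_i²)` (Cauchy-Schwarz,
`Finset.sum_sq_le_sum_mul_sum_of_sq_eq_mul` or `Finset.sum_div_sq...`). If `S = ∅` both sides are `0`. -/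
def MgrStmt : Prop := ∀ (u t k : ℝ), 0 < u → 0 < k → t ^ 2 ≤ 4 * u * k →
    (∀ a D : ℝ, 0 ≤ qf u t k a D) ∧
    ∀ (I : Type) (S : Finset I) (ρ X Y : I → ℝ), (∀ i ∈ S, 0 < ρ i) →
      (∑ i ∈ S, (ρ i)⁻¹)⁻¹ * qf u t k (∑ i ∈ S, X i) (∑ i ∈ S, Y i) ≤
        ∑ i ∈ S, ρ i * qf u t k (X i) (Y i)

/-- DWN (80 lines). Existence of the downward data. PROOF. `q` and `U` by well-founded recursion for `<`
(model: the construction of `s` in the proof of `ResStmt`, `Helper77_MNT/RES.lean`); children satisfy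
`c < par c = v`. Induction: `0 ≤ q` because `rho ≥ 0` (`b_kids`), and
`q v ≤ rho v + ∑ q c ≤ rho v + ∑ b c = b v` because `0 ≤ s/(s+l) ≤ 1` (`0 ≤ s c` by `s_grd`, `s_pos`;
`0 < l c` for children). -/
def DwnStmt : Prop := ∀ (g m : ℕ) (A : ℝ) (V : Type) [Fintype V] [PartialOrder V] [OrderTop V]
    (T : MNT.Tree V) (G : V → Prop) (a b : V → ℕ) (l s r : V → ℝ), (∀ c, c ≠ ⊤ → 0 < l c) →
    La g m T G a b → Res T G l s r → ∃ q U : V → ℝ, Dn g m A T a b l s q U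

/-- UPX (80 lines). Existence of the upward data. PROOF. `p`, `Z` by well-founded recursion for `>`
(model: the construction of `r` in `Helper77_MNT/RES.lean`): the value at `c` uses only the one at
`par c > c`. `0 ≤ p`: all terms are `≥ 0` (`0 ≤ r` for elements `≠ ⊤` by `r_grd`, `r_pos`).
`p c ≤ m - b c`, `u = par c`: `rho u + ∑_{d ∈ kids u \ c} b d = b u - b c`, and the last term is at most
`p u ≤ m - b u` if `u ≠ ⊤`; `b ⊤ = m`. -/
def UpxStmt : Prop := ∀ (g m : ℕ) (A : ℝ) (V : Type) [Fintype V] [PartialOrder V] [OrderTop V]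
    (T : MNT.Tree V) (G : V → Prop) (a b : V → ℕ) (l s r q U : V → ℝ), (∀ c, c ≠ ⊤ → 0 < l c) →
    La g m T G a b → Res T G l s r → Dn g m A T a b l s q U →
    ∃ p Z : V → ℝ, Uw g m A T a b l s r q U p Z

/-- BED (60 lines; uses EDG, MGR). One branch. PROOF. If `Even (a c)`: `2 ≤ a c ≤ 2 g` (`a_pos`,
`a_le`), EDG with `Num.even` (hypothesis `2 * b c ≤ m`) and the hypothesis on `U c`. If `Odd (a c)` the
second claim is empty, and `G c` (`La.even`), so `s c = 0`, `YD = U c + l c w1`, `w1 ≥ 1/30` by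
`Num.odd` (`two_le`, `proper`). In the even case the first claim follows from the second one because
`qf ≥ 0`. -/
def BedStmt : Prop := ∀ (g m : ℕ) (A u t k : ℝ), Num g m A u t k → ∀ (V : Type) [Fintype V]
    [PartialOrder V] [OrderTop V] (T : MNT.Tree V) (G : V → Prop) (a b : V → ℕ) (l s r q U : V → ℝ),
    (∀ c, c ≠ ⊤ → 0 < l c) → La g m T G a b → Res T G l s r → Dn g m A T a b l s q U →
    ∀ c, c ≠ ⊤ → 2 * b c ≤ m →
    1 / 30 * ∑ d with d < c, l d + s c * qf u t k (a c) (b c - q c) ≤ U c →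
    1 / 30 * (l c + ∑ d with d < c, l d) ≤ YD g m A a b l s q U c ∧
    (Even (a c) → 1 / 30 * (l c + ∑ d with d < c, l d) +
      (s c + l c) * qf u t k (a c) (b c - (s c / (s c + l c)) ^ 2 * q c) ≤
        YD g m A a b l s q U c)

/-- BLD (STRONG, 120 lines; uses BED, MGR). The branch lemma downwards.
PROOF by induction on `v` for `<`. For `c ∈ kids v`: `2 * b c ≤ m`, and the children of `c` have
`b d ≤ b c` (`b_kids`), so the induction hypothesis holds for `c` and BED applies.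
`∑_{d < v} l d = ∑_{c ∈ kids v} (l c + ∑_{d < c} l d)` (every `d < v` lies below exactly one child:
`Tree.kids_disj`, and the children of `v` above `d`, e.g. by induction on `d` for `>`; see also the
proofs in `Helper13_MNU/TRG.lean`). If `G v` then `s v = 0`: sum the first claims of BED. If `¬ G v`:
all children are even (`kids_even`), sum the second claims, MGR with `ρ c = s c + l c`, `X c = a c`,
`Y c = b c - (s c/(s c + l c))² q c`: `s v = (∑ (l c + s c)⁻¹)⁻¹` (`Res.s_eq`), `∑ a c = a v`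
(`sum_eq`), `∑ Y c = b v - q v` (`q_eq`, definition of `rho`). -/
def BldStmt : Prop := ∀ (g m : ℕ) (A u t k : ℝ), Num g m A u t k → ∀ (V : Type) [Fintype V]
    [PartialOrder V] [OrderTop V] (T : MNT.Tree V) (G : V → Prop) (a b : V → ℕ) (l s r q U : V → ℝ),
    (∀ c, c ≠ ⊤ → 0 < l c) → La g m T G a b → Res T G l s r → Dn g m A T a b l s q U →
    ∀ v, (∀ c ∈ T.kids v, 2 * b c ≤ m) →
    1 / 30 * ∑ d with d < v, l d + s v * qf u t k (a v) (b v - q v) ≤ U v

/-- BEU (60 lines; uses EDG, MGR, SYW). One branch, upwards: the part of the tree which is not below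
`c`, together with the edge `c`, `m < 2 * b c`. PROOF. As BED with `r`, `p`, `Z`, `2 g + 2 - a c`,
`m - b c` (natural numbers `2 g + 2 - a c`, `m - b c` in `Num.even`; `2 * (m - b c) ≤ m`; if `a c` is
even then `2 ≤ 2 g + 2 - a c ≤ 2 g`) and SYW. In the odd case the parent of `c` is grounded
(`kids_even`), so `r c = 0`, and `w1 (a c) (b c) ≥ 1/30` by `Num.odd`. -/
def BeuStmt : Prop := ∀ (g m : ℕ) (A u t k : ℝ), Num g m A u t k → ∀ (V : Type) [Fintype V]
    [PartialOrder V] [OrderTop V] (T : MNT.Tree V) (G : V → Prop) (a b : V → ℕ)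
    (l s r q U p Z : V → ℝ),
    (∀ c, c ≠ ⊤ → 0 < l c) → La g m T G a b → Res T G l s r → Dn g m A T a b l s q U →
    Uw g m A T a b l s r q U p Z → ∀ c, c ≠ ⊤ → m < 2 * b c →
    1 / 30 * ∑ d with d ≠ ⊤ ∧ ¬ d ≤ c, l d +
      r c * qf u t k (2 * g + 2 - a c) (m - b c - p c) ≤ Z c →
    1 / 30 * (l c + ∑ d with d ≠ ⊤ ∧ ¬ d ≤ c, l d) ≤ YU g m A a b l r p Z c ∧
    (Even (a c) → 1 / 30 * (l c + ∑ d with d ≠ ⊤ ∧ ¬ d ≤ c, l d) +
      (r c + l c) * qf u t k (2 * g + 2 - a c) (m - b c - (r c / (r c + l c)) ^ 2 * p c) ≤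
        YU g m A a b l r p Z c)

/-- BLU (STRONG, 180 lines; uses BED, BLD, BEU, MGR). The branch lemma upwards.
PROOF by induction on `c` for `>`. `v = par c`. The siblings `d ∈ kids v \ c` have
`b d ≤ b v - b c ≤ m - b c`, so `2 * b d ≤ m`, BLD and BED apply to them. If `v ≠ ⊤`: `b c ≤ b v`
(`b_kids`), so `m < 2 * b v` and the induction hypothesis for `v` and BEU give the bound for
`YU v`. `{d ≠ ⊤, ¬ d ≤ c}` is the disjoint union of the sets `{d'} ∪ {< d'}` for the siblings `d'` and,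
if `v ≠ ⊤`, of `{v}` and `{d ≠ ⊤, ¬ d ≤ v}`. If `G v`, `r c = 0`: sum the first claims. If `¬ G v`
(so `v ≠ ⊤`; all children and `a v` even): MGR with index type `Option` (or twice),
`ρ = s d + l d` for the siblings and `l v + r v` for `none`: `(r c)⁻¹ = (l v + r v)⁻¹ + ∑ ...`
(`Res.r_eq`), `∑_{siblings} a d + (2 g + 2 - a v) = 2 g + 2 - a c` (`sum_eq`),
`∑ (b d - (s d/(s d+l d))² q d) + (m - b v - (r v/(r v+l v))² p v) = m - b c - p c` (`p_eq`, `rho`). -/
def BluStmt : Prop := ∀ (g m : ℕ) (A u t k : ℝ), Num g m A u t k → ∀ (V : Type) [Fintype V]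
    [PartialOrder V] [OrderTop V] (T : MNT.Tree V) (G : V → Prop) (a b : V → ℕ)
    (l s r q U p Z : V → ℝ),
    (∀ c, c ≠ ⊤ → 0 < l c) → La g m T G a b → Res T G l s r → Dn g m A T a b l s q U →
    Uw g m A T a b l s r q U p Z → ∀ c, c ≠ ⊤ → m < 2 * b c →
    1 / 30 * ∑ d with d ≠ ⊤ ∧ ¬ d ≤ c, l d +
      r c * qf u t k (2 * g + 2 - a c) (m - b c - p c) ≤ Z c

/-- HHC (40 lines; uses HED of MNT). Resistances of the two ends of an edge. PROOF. By HED
`hh (par c) = r c (s c + l c)/L`, `L = s + l + r`, and `hh c = s (l + r)/L` by definition. `field_simp;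
ring` (`s + l > 0`, `r + l > 0`, `L > 0`). -/
def HhcStmt : Prop := ∀ (V : Type) [Fintype V] [PartialOrder V] [OrderTop V] (T : MNT.Tree V)
    (G : V → Prop) (l s r : V → ℝ), (∀ c, c ≠ ⊤ → 0 < l c) → G ⊤ → Res T G l s r →
    ∀ c, c ≠ ⊤ →
      hh l s r c = s c * l c / (s c + l c) + (s c / (s c + l c)) ^ 2 * hh l s r (T.par c) ∧
      hh l s r (T.par c) = r c * l c / (r c + l c) + (r c / (r c + l c)) ^ 2 * hh l s r c

/-- IDD (80 lines; uses HHC). The identity for everything below `v`. PROOF by induction on `v` for `<`;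
`{d < v}` and `{d ≤ v} \ {v}` are the disjoint unions over `c ∈ kids v` of `{d ≤ c}`. So the left side
is `∑_c (l c w1 c + (U c - A q c h c)) - A rho v h v`, and `h c` is replaced by HHC:
`l c w1 c + U c - A q c h c = YD c - A (s c/(s c + l c))² q c h v`. Use `U_eq`, `q_eq`. -/
def IddStmt : Prop := ∀ (g m : ℕ) (A : ℝ) (V : Type) [Fintype V] [PartialOrder V] [OrderTop V]
    (T : MNT.Tree V) (G : V → Prop) (a b : V → ℕ) (l s r q U : V → ℝ), (∀ c, c ≠ ⊤ → 0 < l c) →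
    La g m T G a b → Res T G l s r → Dn g m A T a b l s q U → ∀ v,
    ∑ d with d < v, l d * w1 g m A (a d) (b d) - A * ∑ d with d ≤ v, rho T b d * hh l s r d =
      U v - A * q v * hh l s r v

/-- IDU (STRONG, 100 lines; uses HHC, IDD). The identity for everything which is not below `c`.
PROOF by induction on `c` for `>`, `v = par c`. `{¬ d ≤ c}` is the disjoint union of `{v}`, of
`{d ≤ d'}` for the siblings `d'` of `c`, and of `{¬ d ≤ v}`; if `v = ⊤` the last set is empty.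
The siblings as in IDD; for `v ≠ ⊤` the induction hypothesis for `v`, the edge `v`, and HHC for
`h (par v)`: `l v w1 v + Z v - A p v h (par v) = YU v - A (r v/(r v + l v))² p v h v`. Use `Z_eq`,
`p_eq`. -/
def IduStmt : Prop := ∀ (g m : ℕ) (A : ℝ) (V : Type) [Fintype V] [PartialOrder V] [OrderTop V]
    (T : MNT.Tree V) (G : V → Prop) (a b : V → ℕ) (l s r q U p Z : V → ℝ),
    (∀ c, c ≠ ⊤ → 0 < l c) → La g m T G a b → Res T G l s r → Dn g m A T a b l s q U →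
    Uw g m A T a b l s r q U p Z → ∀ c, c ≠ ⊤ →
    ∑ d with d ≠ ⊤ ∧ ¬ d ≤ c, l d * w1 g m A (a d) (b d) -
      A * ∑ d with ¬ d ≤ c, rho T b d * hh l s r d = Z c - A * p c * hh l s r (T.par c)

/-- TGW (STRONG, 150 lines; uses RES, FLO of MNT (proved), DWN, UPX, BLD, BLU, BEU, MGR, HHC, IDD, IDU).
The inequality for labelled rooted trees. PROOF. RES gives `s`, `r` (children exist for `¬ G v` by
`sum_eq`, `a_pos`), FLO gives `D v` with `QQ ≤ hh v`; `rho ≥ 0`, `A ≥ 0`, so it is enough to show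
`1/30 ∑_{c ≠ ⊤} l c + A ∑_v rho v hh v ≤ ∑_{c ≠ ⊤} l c w1 (a c) (b c)`. Let `v` be a minimal element
of `{v | m < 2 * b v}` (contains `⊤`, `b ⊤ = m`). Its children have `2 * b c ≤ m`: BLD for `v`. If
`v = ⊤`: `s ⊤ = 0`, `hh ⊤ = 0`, IDD for `⊤`. If `v ≠ ⊤`: IDD for `v`, the edge `v`, IDU for `v` and
HHC (second formula, for `hh (par v)`) give that the difference of the two sides is
`U v + YU v - A hh v (q v + p') - 1/30 ∑ l`, `p' = (r v/(r v + l v))² p v`. If `G v`: `s v = 0`,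
`hh v = 0`, BLD (`U v ≥ 1/30 ∑_{d<v} l d`) and BLU + BEU (first claim). If `¬ G v`: `a v` is even,
BLD, BLU + BEU (second claim), and MGR for two branches (`ρ = s v`, `r v + l v`):
`s v qf (a v) (b v - q v) + (r v + l v) qf (2g+2-a v) (m - b v - p') ≥
hh v qf (2g+2) (m - (q v + p'))`, `≥ A hh v (q v + p')` by `Num.cen`
(`0 ≤ q v + p' ≤ b v + (m - b v)`). `hh v = (1/s v + 1/(l v + r v))⁻¹`. -/
def TgwStmt : Prop := ∀ (g m : ℕ) (A u t k : ℝ), Num g m A u t k → ∀ (V : Type) [Fintype V]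
    [PartialOrder V] [OrderTop V] (T : MNT.Tree V) (G : V → Prop) (a b : V → ℕ) (l : V → ℝ),
    (∀ c, c ≠ ⊤ → 0 < l c) → La g m T G a b →
    ∃ D : V → V → ℝ, (∀ v j, 0 ≤ D v j) ∧ (∀ v j, D v j ≠ 0 → G j) ∧ (∀ v, ∑ j, D v j = 1) ∧
      1 / 30 * ∑ c with c ≠ ⊤, l c +
        A * ∑ v, ((b v : ℝ) - ∑ c ∈ T.kids v, (b c : ℝ)) * QQ l (fun j => D v j - dl v j) ≤
        ∑ c with c ≠ ⊤, l c * w1 g m A (a c) (b c)

/-- TRW (copy of `Helper44_MNU/TRX.lean`, 400 lines; uses TGW and LPA, LKS, LGU, LFT, ENL of MNT (all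
proved)). The tree inequality for laminar families. Differences: `2g+9 → m`, `3g → A`, real arguments
of the weights; `a ⊤ = 2g+1`, `b ⊤ = m` in `La` (`univ ∩ R = R`, `univ \ R = Rᶜ`);
`w0 g m A (2g+1) m + A m = 0` (from the definition of `gm`), `gm g m A ≥ 1/30`
(`(g+1)(2g+1) - A ≥ (g+1) g ≥ 6`, `m - 1 ≤ 12`, so `gm ≥ 1`). -/
def TrwStmt : Prop := ∀ (g m : ℕ) (A u t k : ℝ), Num g m A u t k → TI g m A

/-- OLD (20 lines; uses `MNU.TrxStmt`, proved). Genus 2, 13 points, from MNU. PROOF. `2 * 2 + 9 = 13`,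
`3 * 2 = 6`, `gm 2 13 6 = 3/2 = MNU.gm 2`, so `w0 2 13 6 a b = MNU.u0 2 a b`. -/
def OldStmt : Prop := TI 2 13 6

/-! ### Numbers -/

/-- NU3 (80 lines). `A = 509/50`, `u = 68/25`, `t = 179/50`, `k = 69/50`. Then (`n = 8`, `m = 11`)
`gm 3 11 A = 891/250`. `odd`: for `b = 0`: `w1 = 11 a (a-1)/2 ≥ 33` (`a ≥ 3`); in general
`interval_cases` on `a ∈ {1,3,5,7}`, `b ≤ 11`. `even`: `a ∈ {2,4,6}`, `b ≤ 5`: for each pair
`ed` is a quadratic polynomial in `y` with leading coefficient `3 k > 0`, `≥ 0.06` on `[0, b]`: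
`nlinarith [sq_nonneg (y - y₀)]`, `y₀ = (A + 2 k b - t a)/(6 k)` (for some pairs with `y₀` outside
`[0, b]` also `y * (b - y) ≥ 0` or `y ≥ 0`, `b - y ≥ 0`). `cen`: with `x = 11 - q ∈ [0, 11]`,
`64 u - 8 t x + k x² - A (11 - x)` has discriminant `(8 t - A)² - 4 k (64 u - 11 A) < 0`. -/
def Nu3Stmt : Prop := Num 3 11 (509 / 50) (68 / 25) (179 / 50) (69 / 50)

/-- NU4 (STRONG, 200 lines). With `n = 2g+2 ≥ 10`: `A = (119 n² + 370 n)/1000`,
`k = (27 n² - 52 n + 52)/1000`, `t = (n-1)/2 + 2/25`, `u = 137/50` (`m = 11`).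
`even`: put `z = b - y ≥ 0`, `p = 11/2 - u = 69/25`, `γ = gm`. Then
`ed = p a² - (11/2) a + (2/25) a (2b - z) + (γ/2) b (b-1) + z (A - (n-1) a/2 - 4 k b + 3 k z)`,
`γ/2 = ((n² - n)/2 - A)/10`. `b = 0`: `ed = p a² - (11/2) a ≥ 4 p - 11 = 1/25` for `a ≥ 2`.
`b = 1,...,5`: let `lin = (n-1) a/2 + 4 k b + (2/25) a - A` (`+ (11/1000) (n-10)²` for `b = 1`, and
`ed ≥ ed - (11/1000) (n-10)² z`), `cst = p a² - (11/2) a + (4/25) a b + (γ/2) b(b-1) - 1/30`. Then
`12 k (ed - 1/30) ≥ (6 k z - lin)² + P`, `P = 12 k cst - lin²`. With `n = 10 + x`, `a = 2 + y'`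
(`x, y' ≥ 0` real) `P = Y2 y'² + Y1 y' + Y0` with polynomials in `x`; for `b = 1` all coefficients are
`≥ 0`; for `b = 2,...,5` `Y2`, `Y0` and `4 Y2 Y0 - Y1²` have nonnegative coefficients (checked exactly),
so `4 Y2 P = (2 Y2 y' + Y1)² + (4 Y2 Y0 - Y1²) ≥ 0`. Here `a` is any real number `≥ 2`.
`odd`: by SYW (`a → n - a`, `b → 11 - b`) we may assume `b ≤ 5`; `b = 0`: `11 a(a-1)/2 ≥ 33`
(`a ≥ 3` because `2 ≤ a + b`); `b ≥ 1`: `w1 = (11/2) a² - (11/2) a - (n-1) a b + (γ/2) b(b-1) + A b`,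
minimum over all real `a`: `(γ/2) b(b-1) + A b - (11/2) (1/2 + (n-1) b/11)² ≥ 1/30` (`x ≥ 0`,
nonnegative coefficients). `cen`: discriminant `(t n - A)² - 4 k (u n² - 11 A) < 0`. `psd`. -/
def Nu4Stmt : Prop := ∀ g : ℕ, 4 ≤ g → ∃ A u t k : ℝ, Num g 11 A u t k

/-- NU9 (STRONG, 200 lines; the same as NU4 with `m = 9`, `b ≤ 4`). With `n = 2g+2 ≥ 30`:
`A = (133 n² + 220 n)/1000`, `k = (331 n² - 540 n - 380)/10000`, `t = (n-1)/2 + 19/100`,
`u = 56/25`. `p = 9/2 - u = 113/50`, `γ/2 = ((n² - n)/2 - A)/8`, `4 p - 9 = 1/25`;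
for `b = 1` the extra term is `(3/5000) (n - 30)²` (`= (A₂ - 4 k₂)(n-30)²`). -/
def Nu9Stmt : Prop := ∀ g : ℕ, 14 ≤ g → ∃ A u t k : ℝ, Num g 9 A u t k

end Pool.Agent.MNW
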